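import Pool.Agent.Lib.MP_cb27ba_nt.MB.Spec
import Pool.Agent.Lib.MP_cb27ba_nt.LN.TRG
import Pool.Agent.Lib.MP_cb27ba_nt.LN.BSGG
import Pool.Agent.Lib.MP_cb27ba_nt.LN.OPL
import Pool.Agent.Lib.MP_cb27ba_nt.LN.CLS
import Pool.Agent.Lib.MP_cb27ba_nt.LN.NAL
import Pool.Agent.Lib.MP_cb27ba_nt.LN.All
import Pool.Agent.Lib.MP_cb27ba_nt.TU.FINUK
import Pool.Agent.Lib.MP_cb27ba_nt.TW.All

section
/-!
# MP_cb27ba_nt, project MB: the theorems for Möbius images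
-/
set_option autoImplicit false

namespace MPcb27.MB

open Finset
open scoped Pointwise
open MPcb27.TU MPcb27.TW MPcb27.LN

/-- the block lemma -/
lemma block {p : ℕ} [Fact p.Prime] (χ : MulChar (ZMod p) ℂ)
    {θ : Matrix (Fin 2) (Fin 2) (ZMod p)} (hθ : θ.det ≠ 0) (X A B : Finset (ZMod p)) (U c d : ℝ)
    (hU : 0 ≤ U) (hc : 0 ≤ c) (hAU : (#A : ℝ) ≤ U) (hd : 0 ≤ d) (hcd : c + d ≤ 1) (ν : ℝ) (hν : 0 ≤ ν)
    (hBd : 1 ≤ (ν * d) ^ 2 * #B)
    (hA : ∀ a ∈ A, ∃ z ∈ X, den θ z ≠ 0 ∧ mob θ z = a)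
    (h : NB χ X (pre θ B) (ν * c * Real.sqrt (U * #(pre θ B)))) :
    NB χ A B (ν * Real.sqrt (U * #B)) := by
  intro α β
  have h1 := nb_mob χ hθ X A B (ν * c * Real.sqrt (U * #(pre θ B))) (by positivity) hA h α β
  refine h1.trans (mul_le_mul_of_nonneg_right ?_ (by positivity))
  have h2 : Real.sqrt (U * #(pre θ B)) ≤ Real.sqrt (U * #B) := by
    refine Real.sqrt_le_sqrt (mul_le_mul_of_nonneg_left ?_ hU)
    exact_mod_cast (card_pre hθ B).2
  have h3 : Real.sqrt #A ≤ ν * d * Real.sqrt (U * #B) := by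
    rw [← Real.sqrt_sq (by positivity : (0 : ℝ) ≤ ν * d), ← Real.sqrt_mul (by positivity)]
    refine Real.sqrt_le_sqrt ?_
    calc (#A : ℝ) ≤ U * 1 := by rw [mul_one]; exact hAU
      _ ≤ U * ((ν * d) ^ 2 * #B) := mul_le_mul_of_nonneg_left hBd hU
      _ = _ := by ring
  calc ν * c * Real.sqrt (U * #(pre θ B)) + Real.sqrt #A ≤
        ν * c * Real.sqrt (U * #B) + ν * d * Real.sqrt (U * #B) :=
        add_le_add (mul_le_mul_of_nonneg_left h2 (by positivity)) h3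
    _ = (c + d) * (ν * Real.sqrt (U * #B)) := by ring
    _ ≤ 1 * (ν * Real.sqrt (U * #B)) := mul_le_mul_of_nonneg_right hcd (by positivity)
    _ = _ := one_mul _

theorem big (C c : ℝ) (hc : 0 < c) : ∃ P : ℕ, ∀ p : ℕ, P ≤ p → C ≤ (p : ℝ) ^ c := by
  obtain ⟨P, hP⟩ := Filter.eventually_atTop.1
    (((tendsto_rpow_atTop hc).comp tendsto_natCast_atTop_atTop).eventually_ge_atTop C)
  exact ⟨P, fun p hp => hP p hp⟩

/-- **WGM** -/
theorem finalWGM (h1 : SpecWG1) (hU : SpecUNI) : FinalWGM := by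
  classical
  intro δ hδ
  obtain ⟨τ₁, hτ₁, P₁, hP₁⟩ := h1 (δ / 2) (by positivity)
  set τ : ℝ := min τ₁ (δ / 4) / 2 with hτ
  have hm : 0 < min τ₁ (δ / 4) := lt_min hτ₁ (by positivity)
  have hτ0 : 0 < τ := by positivity
  have hτa : 2 * τ ≤ τ₁ := by
    have := min_le_left τ₁ (δ / 4)
    linarith
  have hτb : 2 * τ ≤ δ / 4 := by
    have := min_le_right τ₁ (δ / 4)
    linarith
  obtain ⟨P₂, hP₂⟩ := big 16 (δ / 2) (by positivity)
  obtain ⟨P₃, hP₃⟩ := big 2 τ hτ0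
  refine ⟨τ, hτ0, max P₁ (max P₂ P₃), ?_⟩
  intro p _ hp B F hB hF A hA χ hχ
  have hpr : p.Prime := Fact.out
  have hp1 : (1 : ℝ) ≤ p := by exact_mod_cast hpr.one_lt.le
  have hp0 : (0 : ℝ) < p := by linarith
  have hpP₁ : P₁ ≤ p := (le_max_left _ _).trans hp
  have h16 := hP₂ p (((le_max_left _ _).trans (le_max_right _ _)).trans hp)
  have h2 := hP₃ p (((le_max_right _ _).trans (le_max_right _ _)).trans hp)
  have hsplit : (p : ℝ) ^ δ = (p : ℝ) ^ (δ / 2) * (p : ℝ) ^ (δ / 2) := by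
    rw [← Real.rpow_add hp0]
    congr 1
    ring
  have hδ0 : (0 : ℝ) < (p : ℝ) ^ (δ / 2) := by positivity
  have hB16 : 16 * (p : ℝ) ^ (δ / 2) ≤ #B := by
    refine le_trans ?_ hB
    rw [hsplit]
    exact mul_le_mul_of_nonneg_right h16 hδ0.le
  have hB1 : (1 : ℝ) ≤ (p : ℝ) ^ (δ / 2) := Real.one_le_rpow hp1 (by positivity)
  -- one block
  have hblock : ∀ q ∈ F, NB χ ((q.2.1.filter fun x => den q.1 x ≠ 0).image (mob q.1)) B
      ((p : ℝ) ^ (-τ) * Real.sqrt ((#(q.2.1 + q.2.2) : ℝ) * #B)) := by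
    intro q hq
    obtain ⟨hdet, ⟨g, n, hg⟩, h3, h4, h5⟩ := hF q hq
    have hq2 : q.2.2 = ap 0 g n := by
      rw [hg, ap]
      simp only [zero_add]
    have hpre : (#B : ℝ) ≤ 2 * #(pre q.1 B) := by
      have h6 : (#B : ℝ) ≤ #(pre q.1 B) + 1 := by exact_mod_cast (card_pre hdet B).1
      linarith
    have hL0 : (0 : ℝ) < #q.2.2 := lt_of_lt_of_le (Real.rpow_pos_of_pos hp0 _) h3
    have hLn : q.2.2.Nonempty := card_pos.1 (by exact_mod_cast hL0)
    have hw : NB χ q.2.1 (pre q.1 B) ((p : ℝ) ^ (-τ₁) *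
        Real.sqrt ((#(q.2.1 + q.2.2) : ℝ) * #(pre q.1 B))) := by
      rw [hq2] at h3 h4 h5 ⊢
      refine hP₁ p hpP₁ q.2.1 (pre q.1 B) g n ?_ ?_ h4 ?_ χ hχ
      · linarith
      · exact (Real.rpow_le_rpow_of_exponent_le hp1 (by linarith)).trans h3
      · have h6 : (p : ℝ) ^ (1 + δ) = (p : ℝ) ^ (δ / 2) * (p : ℝ) ^ (1 + δ / 2) := by
          rw [← Real.rpow_add hp0]
          congr 1
          ring
        rw [h6] at h5
        have h7 : (#B : ℝ) ^ 4 ≤ 16 * (#(pre q.1 B) : ℝ) ^ 4 := by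
          calc (#B : ℝ) ^ 4 ≤ (2 * #(pre q.1 B) : ℝ) ^ 4 :=
                pow_le_pow_left₀ (by positivity) hpre 4
            _ = _ := by ring
        have h8 : 16 * ((p : ℝ) ^ (1 + δ / 2) * E3 (q.2.1 + ap 0 g n) (pre q.1 B)) ≤
            16 * ((#(q.2.1 + ap 0 g n) : ℝ) ^ 2 * (#(pre q.1 B) : ℝ) ^ 4 * #(ap 0 g n)) := by
          calc 16 * ((p : ℝ) ^ (1 + δ / 2) * E3 (q.2.1 + ap 0 g n) (pre q.1 B)) ≤
                (p : ℝ) ^ (δ / 2) *
                  ((p : ℝ) ^ (1 + δ / 2) * E3 (q.2.1 + ap 0 g n) (pre q.1 B)) :=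
                mul_le_mul_of_nonneg_right h16 (by positivity)
            _ = (p : ℝ) ^ (δ / 2) * (p : ℝ) ^ (1 + δ / 2) *
                  E3 (q.2.1 + ap 0 g n) (pre q.1 B) := by ring
            _ ≤ (#(q.2.1 + ap 0 g n) : ℝ) ^ 2 * (#B : ℝ) ^ 4 * #(ap 0 g n) := h5
            _ ≤ (#(q.2.1 + ap 0 g n) : ℝ) ^ 2 * (16 * (#(pre q.1 B) : ℝ) ^ 4) * #(ap 0 g n) := by
                gcongr
            _ = _ := by ring
        linarith
    refine block χ hdet q.2.1 _ B _ (1 / 2) (1 / 2) (by positivity) (by norm_num) ?_ (by norm_num)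
      (by norm_num) _ (by positivity) ?_ ?_ ?_
    · calc (#((q.2.1.filter fun x => den q.1 x ≠ 0).image (mob q.1)) : ℝ) ≤ #q.2.1 := by
            exact_mod_cast card_image_le.trans (card_le_card (filter_subset _ _))
        _ ≤ #(q.2.1 + q.2.2) := by exact_mod_cast card_le_card_add_right hLn
    · have h6 : (p : ℝ) ^ (-τ) * (p : ℝ) ^ τ = 1 := by
        rw [← Real.rpow_add hp0]
        simp
      have h7 : (p : ℝ) ^ (2 * τ) ≤ (p : ℝ) ^ (δ / 2) :=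
        Real.rpow_le_rpow_of_exponent_le hp1 (by linarith)
      have h8 : (p : ℝ) ^ (2 * τ) = (p : ℝ) ^ τ * (p : ℝ) ^ τ := by
        rw [← Real.rpow_add hp0]
        congr 1
        ring
      calc (1 : ℝ) = ((p : ℝ) ^ (-τ) * (p : ℝ) ^ τ) ^ 2 := by rw [h6]; norm_num
        _ = ((p : ℝ) ^ (-τ) * (1 / 2)) ^ 2 * (4 * ((p : ℝ) ^ τ * (p : ℝ) ^ τ)) := by ring
        _ ≤ ((p : ℝ) ^ (-τ) * (1 / 2)) ^ 2 * #B := by
            refine mul_le_mul_of_nonneg_left ?_ (by positivity)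
            rw [← h8]
            linarith
    · intro a ha
      obtain ⟨x, hx, rfl⟩ := mem_image.1 ha
      rw [mem_filter] at hx
      exact ⟨x, hx.1, hx.2, rfl⟩
    · intro α β
      refine (hw α β).trans (mul_le_mul_of_nonneg_right ?_ (by positivity))
      refine mul_le_mul_of_nonneg_right ?_ (Real.sqrt_nonneg _)
      have h6 : (p : ℝ) ^ (-τ₁) * (p : ℝ) ^ τ ≤ (p : ℝ) ^ (-τ) := by
        rw [← Real.rpow_add hp0]
        exact Real.rpow_le_rpow_of_exponent_le hp1 (by linarith)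
      have h7 : 0 ≤ (p : ℝ) ^ (-τ₁) := by positivity
      nlinarith [mul_le_mul_of_nonneg_left h2 h7]
  have h := hU p χ (Matrix (Fin 2) (Fin 2) (ZMod p) × Finset (ZMod p) × Finset (ZMod p)) Unit F univ
    (fun q => (q.2.1.filter fun x => den q.1 x ≠ 0).image (mob q.1)) (fun _ => B)
    (fun q => #(q.2.1 + q.2.2)) (fun _ => #B) ((p : ℝ) ^ (-τ)) (by positivity)
    (fun _ _ => Nat.cast_nonneg _) (fun _ _ => Nat.cast_nonneg _) (fun q hq _ _ => hblock q hq) A B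
    ?_ (fun b hb => ⟨(), mem_univ _, hb⟩)
  · have e2 : (∑ i ∈ (univ : Finset Unit), (fun _ => (#B : ℝ)) i) = #B := by simp
    rw [e2] at h
    exact h
  · intro a ha
    obtain ⟨q, hq, x, hx, hd, hxa⟩ := hA a ha
    exact ⟨q, hq, mem_image.2 ⟨x, mem_filter.2 ⟨hx, hd⟩, hxa⟩⟩

/-- **LNM** -/
theorem finalLNM (hL : FinalLN) (hU : SpecUNI) : FinalLNM := by
  classical
  intro δ hδ
  obtain ⟨τ₁, hτ₁, P₁, hP₁⟩ := hL δ hδ
  set τ : ℝ := min τ₁ (1 / 8) / 2 with hτ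
  have hm : 0 < min τ₁ (1 / 8) := lt_min hτ₁ (by norm_num)
  have hτ0 : 0 < τ := by positivity
  have hτa : 2 * τ ≤ τ₁ := by
    have := min_le_left τ₁ (1 / 8)
    linarith
  have hτb : 2 * τ ≤ 1 / 8 := by
    have := min_le_right τ₁ (1 / 8 : ℝ)
    linarith
  obtain ⟨P₂, hP₂⟩ := big 2 τ hτ0
  refine ⟨τ, hτ0, max P₁ P₂, ?_⟩
  intro p _ hp B F hB hF A hA χ hχ
  have hpr : p.Prime := Fact.out
  have hp1 : (1 : ℝ) ≤ p := by exact_mod_cast hpr.one_lt.le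
  have hp0 : (0 : ℝ) < p := by linarith
  have hpP₁ : P₁ ≤ p := (le_max_left _ _).trans hp
  have h2 := hP₂ p ((le_max_right _ _).trans hp)
  have hBτ : (p : ℝ) ^ (2 * τ) * 4 ≤ #B := by
    calc (p : ℝ) ^ (2 * τ) * 4 ≤ (p : ℝ) ^ (2 * τ) * ((p : ℝ) ^ τ * (p : ℝ) ^ τ) := by
          refine mul_le_mul_of_nonneg_left ?_ (by positivity)
          nlinarith
      _ = (p : ℝ) ^ (2 * τ + (τ + τ)) := by rw [Real.rpow_add hp0, Real.rpow_add hp0]
      _ ≤ (p : ℝ) ^ (1 / 2 - τ) := Real.rpow_le_rpow_of_exponent_le hp1 (by linarith)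
      _ ≤ #B := hB
  have hp2τ : (1 : ℝ) ≤ (p : ℝ) ^ (2 * τ) := Real.one_le_rpow hp1 (by positivity)
  -- the sets of one block
  obtain ⟨Aq, hAq⟩ : ∃ Aq : Matrix (Fin 2) (Fin 2) (ZMod p) × Finset (ZMod p × ZMod p) ×
      Finset (ZMod p) × ℕ → Finset (ZMod p), Aq = fun q => univ.filter fun a =>
      q.2.2.2 ≤ #((q.2.1 ×ˢ q.2.2.1).filter fun x =>
          den q.1 (x.1.1 * x.2 + x.1.2) ≠ 0 ∧ mob q.1 (x.1.1 * x.2 + x.1.2) = a) := ⟨_, rfl⟩
  have hblock : ∀ q ∈ F, NB χ (Aq q) B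
      ((p : ℝ) ^ (-τ) * Real.sqrt (((#q.2.1 : ℝ) * #q.2.2.1 / q.2.2.2) * #B)) := by
    intro q hq
    obtain ⟨hdet, hsl, hoff, hC, hm1⟩ := hF q hq
    have hm0 : (0 : ℝ) < q.2.2.2 := by exact_mod_cast hm1
    have hpre : (#B : ℝ) ≤ 2 * #(pre q.1 B) := by
      have h6 : (#B : ℝ) ≤ #(pre q.1 B) + 1 := by exact_mod_cast (card_pre hdet B).1
      linarith
    obtain ⟨Z, hZ⟩ : ∃ Z : Finset (ZMod p), Z = univ.filter fun z =>
      q.2.2.2 ≤ #((q.2.1 ×ˢ q.2.2.1).filter fun x => x.1.1 * x.2 + x.1.2 = z) := ⟨_, rfl⟩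
    have hAZ : ∀ a ∈ Aq q, ∃ z ∈ Z, den q.1 z ≠ 0 ∧ mob q.1 z = a := by
      intro a ha
      rw [hAq, mem_filter] at ha
      have ha2 := ha.2
      have hne : ((q.2.1 ×ˢ q.2.2.1).filter fun x =>
          den q.1 (x.1.1 * x.2 + x.1.2) ≠ 0 ∧ mob q.1 (x.1.1 * x.2 + x.1.2) = a).Nonempty := by
        rw [← card_pos]
        omega
      obtain ⟨x₀, hx₀⟩ := hne
      rw [mem_filter] at hx₀
      refine ⟨x₀.1.1 * x₀.2 + x₀.1.2, ?_, hx₀.2⟩
      rw [hZ, mem_filter]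
      refine ⟨mem_univ _, ha2.trans (card_le_card ?_)⟩
      intro x hx
      rw [mem_filter] at hx ⊢
      exact ⟨hx.1, mob_inj hdet hx.2.1 hx₀.2.1 (hx.2.2.trans hx₀.2.2.symm)⟩
    have hZc : (#Z : ℝ) ≤ (#q.2.1 : ℝ) * #q.2.2.1 / q.2.2.2 := by
      rw [le_div_iff₀ hm0]
      have h6 : #Z * q.2.2.2 ≤ #(q.2.1 ×ˢ q.2.2.1) := by
        calc #Z * q.2.2.2 = ∑ _z ∈ Z, q.2.2.2 := by rw [sum_const, smul_eq_mul]
          _ ≤ ∑ z ∈ Z, #((q.2.1 ×ˢ q.2.2.1).filter fun x => x.1.1 * x.2 + x.1.2 = z) := by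
              refine sum_le_sum fun z hz => ?_
              rw [hZ, mem_filter] at hz
              exact hz.2
          _ = #((q.2.1 ×ˢ q.2.2.1).filter fun x => x.1.1 * x.2 + x.1.2 ∈ Z) :=
              sum_card_fiberwise_eq_card_filter _ _ _
          _ ≤ _ := card_le_card (filter_subset _ _)
      rw [card_product] at h6
      exact_mod_cast h6
    have hAc : (#(Aq q) : ℝ) ≤ (#q.2.1 : ℝ) * #q.2.2.1 / q.2.2.2 := by
      refine le_trans ?_ hZc
      have h6 : Aq q ⊆ Z.image (mob q.1) := by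
        intro a ha
        obtain ⟨z, hz, _, hza⟩ := hAZ a ha
        exact mem_image.2 ⟨z, hz, hza⟩
      exact_mod_cast (card_le_card h6).trans card_image_le
    have hw : NB χ Z (pre q.1 B) ((p : ℝ) ^ (-τ₁) *
        Real.sqrt (((#q.2.1 : ℝ) * #q.2.2.1 / q.2.2.2) * #(pre q.1 B))) := by
      have h6 := hP₁ p hpP₁ (pre q.1 B) {(q.2.1, q.2.2.1, q.2.2.2)} (by
        have h7 : (p : ℝ) ^ (1 / 2 - τ₁) * (p : ℝ) ^ τ ≤ (p : ℝ) ^ (1 / 2 - τ) := by
          rw [← Real.rpow_add hp0]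
          exact Real.rpow_le_rpow_of_exponent_le hp1 (by linarith)
        have h8 : (0 : ℝ) < (p : ℝ) ^ (1 / 2 - τ₁) := by positivity
        nlinarith [mul_le_mul_of_nonneg_left h2 h8.le]) (by
        intro q' hq'
        rw [mem_singleton] at hq'
        subst hq'
        exact ⟨hsl, hoff, hC, hm1⟩) Z (by
        intro z hz
        rw [hZ, mem_filter] at hz
        exact ⟨_, mem_singleton_self _, hz.2⟩) χ hχ
      rw [sum_singleton] at h6
      exact h6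
    refine block χ hdet Z _ B _ (1 / 2) (1 / 2) (by positivity) (by norm_num) hAc (by norm_num)
      (by norm_num) _ (by positivity) ?_ hAZ ?_
    · have h6 : (p : ℝ) ^ (-τ) * (p : ℝ) ^ τ = 1 := by
        rw [← Real.rpow_add hp0]
        simp
      have h8 : (p : ℝ) ^ (2 * τ) = (p : ℝ) ^ τ * (p : ℝ) ^ τ := by
        rw [← Real.rpow_add hp0]
        congr 1
        ring
      calc (1 : ℝ) = ((p : ℝ) ^ (-τ) * (p : ℝ) ^ τ) ^ 2 := by rw [h6]; norm_num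
        _ = ((p : ℝ) ^ (-τ) * (1 / 2)) ^ 2 * (((p : ℝ) ^ τ * (p : ℝ) ^ τ) * 4) := by ring
        _ ≤ ((p : ℝ) ^ (-τ) * (1 / 2)) ^ 2 * #B := by
            refine mul_le_mul_of_nonneg_left ?_ (by positivity)
            rw [← h8]
            exact hBτ
    · intro α β
      refine (hw α β).trans (mul_le_mul_of_nonneg_right ?_ (by positivity))
      refine mul_le_mul_of_nonneg_right ?_ (Real.sqrt_nonneg _)
      have h6 : (p : ℝ) ^ (-τ₁) * (p : ℝ) ^ τ ≤ (p : ℝ) ^ (-τ) := by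
        rw [← Real.rpow_add hp0]
        exact Real.rpow_le_rpow_of_exponent_le hp1 (by linarith)
      have h7 : 0 ≤ (p : ℝ) ^ (-τ₁) := by positivity
      nlinarith [mul_le_mul_of_nonneg_left h2 h7]
  have h := hU p χ (Matrix (Fin 2) (Fin 2) (ZMod p) × Finset (ZMod p × ZMod p) ×
      Finset (ZMod p) × ℕ) Unit F univ Aq (fun _ => B)
    (fun q => (#q.2.1 : ℝ) * #q.2.2.1 / q.2.2.2) (fun _ => #B) ((p : ℝ) ^ (-τ)) (by positivity)
    (fun _ _ => by positivity) (fun _ _ => Nat.cast_nonneg _) (fun q hq _ _ => hblock q hq) A B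
    ?_ (fun b hb => ⟨(), mem_univ _, hb⟩)
  · have e2 : (∑ i ∈ (univ : Finset Unit), (fun _ => (#B : ℝ)) i) = #B := by simp
    rw [e2] at h
    exact h
  · intro a ha
    obtain ⟨q, hq, h1⟩ := hA a ha
    refine ⟨q, hq, ?_⟩
    rw [hAq, mem_filter]
    exact ⟨mem_univ _, h1⟩

end MPcb27.MB
end

section
/-!
# MP_cb27ba_nt, project MB: assembly
-/
set_option autoImplicit false

namespace MPcb27.MB

/-- the count of theorem A for families which are not concentrated on a line -/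
theorem nal : LN.SpecNAL :=
  LN.specNAL (LN.specFLG LN.specTRG LN.specBSGG LN.specAPX LN.specCLS) LN.specOPL LN.specITR

/-- **THEOREM LN** for Möbius images -/
theorem theoremLNM : FinalLNM := finalLNM (LN.finalLN TW.theoremA nal) TU.specUNI

/-- the one-sided theorem G for Möbius images -/
theorem theoremWGM : FinalWGM := finalWGM TW.wg1 TU.specUNI

end MPcb27.MB
end
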