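import Pool.Agent.Lib.MP_cb27ba_nt.TU.Spec

/-!
# MP_cb27ba_nt, project MB: Möbius maps

The norm of the matrix `χ (a - b)` does not change under Möbius maps: with `θ z = (a z + b) / (c z + d)`
we have `θ z - θ y = (a d - b c) (z - y) / ((c z + d) (c y + d))`. So theorems with an arbitrary set
`B` hold for the Möbius images of their sets `A`.
-/

set_option autoImplicit false

namespace MPcb27.MB

open Finset
open scoped Pointwise
open MPcb27.TU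

/-- the Möbius map -/
def mob {p : ℕ} (θ : Matrix (Fin 2) (Fin 2) (ZMod p)) (z : ZMod p) : ZMod p :=
  (θ 0 0 * z + θ 0 1) * (θ 1 0 * z + θ 1 1)⁻¹

/-- the denominator -/
def den {p : ℕ} (θ : Matrix (Fin 2) (Fin 2) (ZMod p)) (z : ZMod p) : ZMod p :=
  θ 1 0 * z + θ 1 1

/-- the preimage of `B` -/
def pre {p : ℕ} [Fact p.Prime] (θ : Matrix (Fin 2) (Fin 2) (ZMod p)) (B : Finset (ZMod p)) :
    Finset (ZMod p) := univ.filter fun z => den θ z ≠ 0 ∧ mob θ z ∈ B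

variable {p : ℕ} [Fact p.Prime]

lemma mob_sub {θ : Matrix (Fin 2) (Fin 2) (ZMod p)} {z y : ZMod p} (hz : den θ z ≠ 0)
    (hy : den θ y ≠ 0) :
    mob θ z - mob θ y = θ.det * (z - y) * ((den θ z)⁻¹ * (den θ y)⁻¹) := by
  have e1 : den θ z * (den θ z)⁻¹ = 1 := mul_inv_cancel₀ hz
  have e2 : den θ y * (den θ y)⁻¹ = 1 := mul_inv_cancel₀ hy
  have e3 : mob θ z = (θ 0 0 * z + θ 0 1) * (den θ z)⁻¹ := rfl
  have e4 : mob θ y = (θ 0 0 * y + θ 0 1) * (den θ y)⁻¹ := rfl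
  have e5 : θ.det * (z - y) = (θ 0 0 * z + θ 0 1) * den θ y - (θ 0 0 * y + θ 0 1) * den θ z := by
    rw [Matrix.det_fin_two]
    unfold den
    ring
  rw [e3, e4, e5]
  linear_combination (-((θ 0 0 * z + θ 0 1) * (den θ z)⁻¹)) * e2 +
    ((θ 0 0 * y + θ 0 1) * (den θ y)⁻¹) * e1

lemma mob_inj {θ : Matrix (Fin 2) (Fin 2) (ZMod p)} (hθ : θ.det ≠ 0) {z y : ZMod p}
    (hz : den θ z ≠ 0) (hy : den θ y ≠ 0) (h : mob θ z = mob θ y) : z = y := by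
  have h1 := mob_sub hz hy
  rw [h, sub_self] at h1
  have h2 : (den θ z)⁻¹ * (den θ y)⁻¹ ≠ 0 := mul_ne_zero (inv_ne_zero hz) (inv_ne_zero hy)
  have h3 : θ.det * (z - y) = 0 := by
    rcases mul_eq_zero.1 h1.symm with h | h
    · exact h
    · exact absurd h h2
  rcases mul_eq_zero.1 h3 with h | h
  · exact absurd h hθ
  · exact sub_eq_zero.1 h

lemma mob_surj {θ : Matrix (Fin 2) (Fin 2) (ZMod p)} (hθ : θ.det ≠ 0) {b : ZMod p}
    (hb : θ 1 0 * b ≠ θ 0 0) : ∃ z, den θ z ≠ 0 ∧ mob θ z = b := by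
  have h1 : θ 0 0 - θ 1 0 * b ≠ 0 := fun h => hb (sub_eq_zero.1 h).symm
  have h2 : den θ ((b * θ 1 1 - θ 0 1) * (θ 0 0 - θ 1 0 * b)⁻¹) =
      θ.det * (θ 0 0 - θ 1 0 * b)⁻¹ := by
    unfold den
    rw [Matrix.det_fin_two]
    field_simp
    ring
  have h3 : den θ ((b * θ 1 1 - θ 0 1) * (θ 0 0 - θ 1 0 * b)⁻¹) ≠ 0 := by
    rw [h2]
    exact mul_ne_zero hθ (inv_ne_zero h1)
  refine ⟨(b * θ 1 1 - θ 0 1) * (θ 0 0 - θ 1 0 * b)⁻¹, h3, ?_⟩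
  have h4 : mob θ ((b * θ 1 1 - θ 0 1) * (θ 0 0 - θ 1 0 * b)⁻¹) =
      (θ 0 0 * ((b * θ 1 1 - θ 0 1) * (θ 0 0 - θ 1 0 * b)⁻¹) + θ 0 1) *
      (den θ ((b * θ 1 1 - θ 0 1) * (θ 0 0 - θ 1 0 * b)⁻¹))⁻¹ := rfl
  rw [h4, h2, mul_inv_eq_iff_eq_mul₀ (mul_ne_zero hθ (inv_ne_zero h1)), Matrix.det_fin_two]
  have e1 : (θ 0 0 - θ 1 0 * b) * (θ 0 0 - θ 1 0 * b)⁻¹ = 1 := mul_inv_cancel₀ h1
  linear_combination (-(θ 0 1)) * e1

/-- at most one element of `B` has no preimage -/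
lemma card_pre {θ : Matrix (Fin 2) (Fin 2) (ZMod p)} (hθ : θ.det ≠ 0) (B : Finset (ZMod p)) :
    #B ≤ #(pre θ B) + 1 ∧ #(pre θ B) ≤ #B := by
  classical
  constructor
  · have h1 : B ⊆ (pre θ B).image (mob θ) ∪ B.filter fun b => θ 1 0 * b = θ 0 0 := by
      intro b hb
      by_cases h : θ 1 0 * b = θ 0 0
      · exact mem_union_right _ (mem_filter.2 ⟨hb, h⟩)
      · obtain ⟨z, hz, hzb⟩ := mob_surj hθ h
        refine mem_union_left _ (mem_image.2 ⟨z, ?_, hzb⟩)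
        rw [pre, mem_filter]
        exact ⟨mem_univ _, hz, hzb ▸ hb⟩
    have h2 : #(B.filter fun b => θ 1 0 * b = θ 0 0) ≤ 1 := by
      rw [card_le_one]
      intro b hb b' hb'
      rw [mem_filter] at hb hb'
      by_cases hc : θ 1 0 = 0
      · exfalso
        rw [Matrix.det_fin_two] at hθ
        have h3 := hb.2
        rw [hc, zero_mul] at h3
        apply hθ
        rw [← h3, hc]
        ring
      · exact mul_left_cancel₀ hc (hb.2.trans hb'.2.symm)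
    calc #B ≤ _ := card_le_card h1
      _ ≤ _ := (card_union_le _ _).trans (Nat.add_le_add card_image_le h2)
  · refine card_le_card_of_injOn (mob θ) ?_ ?_
    · intro z hz
      rw [mem_coe, pre, mem_filter] at hz
      exact hz.2.2
    · intro z hz y hy h
      rw [mem_coe, pre, mem_filter] at hz hy
      exact mob_inj hθ hz.2.1 hy.2.1 h

/-- **MOB** -/
theorem nb_mob (χ : MulChar (ZMod p) ℂ) {θ : Matrix (Fin 2) (Fin 2) (ZMod p)} (hθ : θ.det ≠ 0)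
    (X A B : Finset (ZMod p)) (M : ℝ) (hM : 0 ≤ M)
    (hA : ∀ a ∈ A, ∃ z ∈ X, den θ z ≠ 0 ∧ mob θ z = a) (h : NB χ X (pre θ B) M) :
    NB χ A B (M + Real.sqrt #A) := by
  classical
  intro α β
  -- the preimage of `A`
  obtain ⟨Z, hZ⟩ : ∃ Z : Finset (ZMod p), Z = X.filter fun z => den θ z ≠ 0 ∧ mob θ z ∈ A :=
    ⟨_, rfl⟩
  have hZm : ∀ z, z ∈ Z ↔ z ∈ X ∧ den θ z ≠ 0 ∧ mob θ z ∈ A := by
    intro z
    rw [hZ, mem_filter]
  have hsumA : ∀ {N : Type} [AddCommMonoid N] (F : ZMod p → N), ∑ a ∈ A, F a =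
      ∑ z ∈ Z, F (mob θ z) := by
    intro N _ F
    refine (sum_bij (fun z _ => mob θ z) (fun z hz => ((hZm z).1 hz).2.2) ?_ ?_
      (fun z _ => rfl)).symm
    · intro z hz y hy hzy
      exact mob_inj hθ ((hZm z).1 hz).2.1 ((hZm y).1 hy).2.1 hzy
    · intro a ha
      obtain ⟨z, hz, hz1, hz2⟩ := hA a ha
      exact ⟨z, (hZm z).2 ⟨hz, hz1, hz2 ▸ ha⟩, hz2⟩
  -- the part of `B` with a preimage
  obtain ⟨B₀, hB₀⟩ : ∃ B₀ : Finset (ZMod p), B₀ = B.filter fun b => θ 1 0 * b = θ 0 0 := ⟨_, rfl⟩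
  have hB₀1 : #B₀ ≤ 1 := by
    rw [hB₀, card_le_one]
    intro b hb b' hb'
    rw [mem_filter] at hb hb'
    by_cases hc : θ 1 0 = 0
    · exfalso
      rw [Matrix.det_fin_two] at hθ
      have h3 := hb.2
      rw [hc, zero_mul] at h3
      apply hθ
      rw [← h3, hc]
      ring
    · exact mul_left_cancel₀ hc (hb.2.trans hb'.2.symm)
  have hpm : ∀ z, z ∈ pre θ B ↔ den θ z ≠ 0 ∧ mob θ z ∈ B := by
    intro z
    rw [pre, mem_filter]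
    simp
  have hnot : ∀ z, den θ z ≠ 0 → θ 1 0 * mob θ z ≠ θ 0 0 := by
    intro z hz hcon
    have h1 : θ 1 0 * mob θ z * den θ z = θ 1 0 * (θ 0 0 * z + θ 0 1) := by
      unfold mob
      change θ 1 0 * ((θ 0 0 * z + θ 0 1) * (den θ z)⁻¹) * den θ z = _
      field_simp
    rw [hcon] at h1
    rw [Matrix.det_fin_two] at hθ
    apply hθ
    unfold den at h1
    linear_combination h1
  have hsumB : ∀ {N : Type} [AddCommMonoid N] (F : ZMod p → N),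
      ∑ b ∈ B.filter (fun b => ¬ θ 1 0 * b = θ 0 0), F b = ∑ y ∈ pre θ B, F (mob θ y) := by
    intro N _ F
    refine (sum_bij (fun z _ => mob θ z) ?_ ?_ ?_ (fun z _ => rfl)).symm
    · intro z hz
      rw [hpm] at hz
      exact mem_filter.2 ⟨hz.2, hnot z hz.1⟩
    · intro z hz y hy hzy
      rw [hpm] at hz hy
      exact mob_inj hθ hz.1 hy.1 hzy
    · intro b hb
      rw [mem_filter] at hb
      obtain ⟨z, hz, hzb⟩ := mob_surj hθ hb.2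
      exact ⟨z, (hpm z).2 ⟨hz, hzb ▸ hb.1⟩, hzb⟩
  -- splitting
  have hsplit : ∑ a ∈ A, ∑ b ∈ B, α a * β b * χ (a - b) =
      (∑ a ∈ A, ∑ b ∈ B.filter (fun b => ¬ θ 1 0 * b = θ 0 0), α a * β b * χ (a - b)) +
      ∑ a ∈ A, ∑ b ∈ B₀, α a * β b * χ (a - b) := by
    rw [← sum_add_distrib]
    refine sum_congr rfl fun a _ => ?_
    rw [hB₀, add_comm, sum_filter_add_sum_filter_not]
  -- the exceptional column
  have hχ1 : ∀ x : ZMod p, ‖χ x‖ ≤ 1 := fun x => DirichletCharacter.norm_le_one (n := p) χ x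
  have hSA : ∑ a ∈ A, ‖α a‖ ≤ Real.sqrt #A * Real.sqrt (∑ a ∈ A, ‖α a‖ ^ 2) := by
    have h1 := Real.sum_mul_le_sqrt_mul_sqrt A (fun _ => (1 : ℝ)) (fun a => ‖α a‖)
    simpa using h1
  have hSB : ∑ b ∈ B₀, ‖β b‖ ≤ Real.sqrt (∑ b ∈ B, ‖β b‖ ^ 2) := by
    have h1 := Real.sum_mul_le_sqrt_mul_sqrt B₀ (fun _ => (1 : ℝ)) (fun b => ‖β b‖)
    have h2 : ∑ b ∈ B₀, ‖β b‖ ^ 2 ≤ ∑ b ∈ B, ‖β b‖ ^ 2 :=
      sum_le_sum_of_subset_of_nonneg (by rw [hB₀]; exact filter_subset _ _)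
        fun _ _ _ => by positivity
    have h3 : Real.sqrt (∑ _b ∈ B₀, (1 : ℝ) ^ 2) ≤ 1 := by
      rw [Real.sqrt_le_one]
      simpa using (by exact_mod_cast hB₀1 : (#B₀ : ℝ) ≤ 1)
    calc ∑ b ∈ B₀, ‖β b‖ = ∑ b ∈ B₀, 1 * ‖β b‖ := by simp
      _ ≤ Real.sqrt (∑ _b ∈ B₀, (1 : ℝ) ^ 2) * Real.sqrt (∑ b ∈ B₀, ‖β b‖ ^ 2) := h1
      _ ≤ 1 * Real.sqrt (∑ b ∈ B, ‖β b‖ ^ 2) :=
          mul_le_mul h3 (Real.sqrt_le_sqrt h2) (Real.sqrt_nonneg _) zero_le_one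
      _ = _ := one_mul _
  have hcol : ‖∑ a ∈ A, ∑ b ∈ B₀, α a * β b * χ (a - b)‖ ≤
      Real.sqrt #A * (Real.sqrt (∑ a ∈ A, ‖α a‖ ^ 2) * Real.sqrt (∑ b ∈ B, ‖β b‖ ^ 2)) := by
    calc ‖∑ a ∈ A, ∑ b ∈ B₀, α a * β b * χ (a - b)‖ ≤ ∑ a ∈ A, ∑ b ∈ B₀, ‖α a‖ * ‖β b‖ := by
          refine (norm_sum_le _ _).trans (sum_le_sum fun a _ => ?_)
          refine (norm_sum_le _ _).trans (sum_le_sum fun b _ => ?_)
          rw [norm_mul, norm_mul]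
          exact mul_le_of_le_one_right (by positivity) (hχ1 _)
      _ = (∑ a ∈ A, ‖α a‖) * ∑ b ∈ B₀, ‖β b‖ := by rw [sum_mul_sum]
      _ ≤ (Real.sqrt #A * Real.sqrt (∑ a ∈ A, ‖α a‖ ^ 2)) * Real.sqrt (∑ b ∈ B, ‖β b‖ ^ 2) :=
          mul_le_mul hSA hSB (sum_nonneg fun _ _ => norm_nonneg _) (by positivity)
      _ = _ := by ring
  -- the main part
  have hmain : ‖∑ a ∈ A, ∑ b ∈ B.filter (fun b => ¬ θ 1 0 * b = θ 0 0),
      α a * β b * χ (a - b)‖ ≤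
      M * (Real.sqrt (∑ a ∈ A, ‖α a‖ ^ 2) * Real.sqrt (∑ b ∈ B, ‖β b‖ ^ 2)) := by
    have e1 : ∑ a ∈ A, ∑ b ∈ B.filter (fun b => ¬ θ 1 0 * b = θ 0 0), α a * β b * χ (a - b) =
        χ θ.det * ∑ x ∈ X, ∑ y ∈ pre θ B,
          (if x ∈ Z then α (mob θ x) * χ (den θ x)⁻¹ else 0) *
            (β (mob θ y) * χ (den θ y)⁻¹) * χ (x - y) := by
      rw [hsumA fun a => ∑ b ∈ B.filter (fun b => ¬ θ 1 0 * b = θ 0 0), α a * β b * χ (a - b)]
      rw [mul_sum]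
      have e2 : ∀ x, χ θ.det * ∑ y ∈ pre θ B,
          (if x ∈ Z then α (mob θ x) * χ (den θ x)⁻¹ else 0) *
            (β (mob θ y) * χ (den θ y)⁻¹) * χ (x - y) =
          if x ∈ Z then (χ θ.det * ∑ y ∈ pre θ B, α (mob θ x) * χ (den θ x)⁻¹ *
            (β (mob θ y) * χ (den θ y)⁻¹) * χ (x - y)) else 0 := by
        intro x
        split_ifs
        · rfl
        · simp
      rw [sum_congr rfl fun x _ => e2 x, sum_ite_mem]
      have e3 : X ∩ Z = Z := inter_eq_right.2 (by rw [hZ]; exact filter_subset _ _)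
      rw [e3]
      refine sum_congr rfl fun z hz => ?_
      rw [hsumB fun b => α (mob θ z) * β b * χ (mob θ z - b), mul_sum]
      refine sum_congr rfl fun y hy => ?_
      rw [hpm] at hy
      rw [mob_sub ((hZm z).1 hz).2.1 hy.1, map_mul, map_mul, map_mul]
      ring
    have hχinv : ∀ x : ZMod p, ‖χ x⁻¹‖ ≤ 1 := fun x => hχ1 _
    have h2 := h (fun x => if x ∈ Z then α (mob θ x) * χ (den θ x)⁻¹ else 0)
      (fun y => β (mob θ y) * χ (den θ y)⁻¹)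
    have h3 : ∑ x ∈ X, ‖(if x ∈ Z then α (mob θ x) * χ (den θ x)⁻¹ else 0 : ℂ)‖ ^ 2 ≤
        ∑ a ∈ A, ‖α a‖ ^ 2 := by
      rw [hsumA fun a => ‖α a‖ ^ 2]
      have e3 : X ∩ Z = Z := inter_eq_right.2 (by rw [hZ]; exact filter_subset _ _)
      have e4 : ∀ x, ‖(if x ∈ Z then α (mob θ x) * χ (den θ x)⁻¹ else 0 : ℂ)‖ ^ 2 =
          if x ∈ Z then ‖α (mob θ x) * χ (den θ x)⁻¹‖ ^ 2 else 0 := by
        intro x
        split_ifs <;> simp
      rw [sum_congr rfl fun x _ => e4 x, sum_ite_mem, e3]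
      refine sum_le_sum fun z _ => ?_
      rw [norm_mul]
      exact pow_le_pow_left₀ (by positivity)
        (mul_le_of_le_one_right (norm_nonneg _) (hχinv _)) 2
    have h4 : ∑ y ∈ pre θ B, ‖β (mob θ y) * χ (den θ y)⁻¹‖ ^ 2 ≤ ∑ b ∈ B, ‖β b‖ ^ 2 := by
      calc ∑ y ∈ pre θ B, ‖β (mob θ y) * χ (den θ y)⁻¹‖ ^ 2 ≤
            ∑ y ∈ pre θ B, ‖β (mob θ y)‖ ^ 2 := by
            refine sum_le_sum fun y _ => ?_
            rw [norm_mul]
            exact pow_le_pow_left₀ (by positivity)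
              (mul_le_of_le_one_right (norm_nonneg _) (hχinv _)) 2
        _ = ∑ b ∈ B.filter (fun b => ¬ θ 1 0 * b = θ 0 0), ‖β b‖ ^ 2 :=
            (hsumB fun b => ‖β b‖ ^ 2).symm
        _ ≤ _ := sum_le_sum_of_subset_of_nonneg (filter_subset _ _) fun _ _ _ => by positivity
    rw [e1, norm_mul]
    calc ‖χ θ.det‖ * ‖∑ x ∈ X, ∑ y ∈ pre θ B,
          (if x ∈ Z then α (mob θ x) * χ (den θ x)⁻¹ else 0) *
            (β (mob θ y) * χ (den θ y)⁻¹) * χ (x - y)‖ ≤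
          1 * (M * (Real.sqrt (∑ x ∈ X,
            ‖(if x ∈ Z then α (mob θ x) * χ (den θ x)⁻¹ else 0 : ℂ)‖ ^ 2) *
            Real.sqrt (∑ y ∈ pre θ B, ‖β (mob θ y) * χ (den θ y)⁻¹‖ ^ 2))) :=
          mul_le_mul (hχ1 _) h2 (norm_nonneg _) zero_le_one
      _ ≤ 1 * (M * (Real.sqrt (∑ a ∈ A, ‖α a‖ ^ 2) * Real.sqrt (∑ b ∈ B, ‖β b‖ ^ 2))) := by
          refine mul_le_mul_of_nonneg_left (mul_le_mul_of_nonneg_left ?_ hM) zero_le_one
          exact mul_le_mul (Real.sqrt_le_sqrt h3) (Real.sqrt_le_sqrt h4) (Real.sqrt_nonneg _)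
            (Real.sqrt_nonneg _)
      _ = _ := one_mul _
  rw [hsplit, add_mul]
  exact (norm_add_le _ _).trans (add_le_add hmain hcol)

end MPcb27.MB
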