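import Pool.Agent.Lib.MP_cb27ba_nt.MB.MOB
import Pool.Agent.Lib.MP_cb27ba_nt.TW.Spec2
import Pool.Agent.Lib.MP_cb27ba_nt.LN.Spec

/-!
# MP_cb27ba_nt, project MB: exact statements

The one-sided theorem G (`TW.FinalWG`) and theorem LN (`LN.FinalLN`) for sets `A` which are covered
by MÖBIUS IMAGES of the sets of these theorems; a Möbius map may be chosen for every piece.
-/

set_option autoImplicit false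

namespace MPcb27.MB

open Finset
open scoped Pointwise
open MPcb27.TU MPcb27.TW MPcb27.LN

/-- WGM: from `TW.SpecWG1`, MOB, UNI. -/
def FinalWGM : Prop :=
  ∀ δ : ℝ, 0 < δ → ∃ τ : ℝ, 0 < τ ∧ ∃ P : ℕ, ∀ (p : ℕ) [Fact p.Prime], P ≤ p →
    ∀ (B : Finset (ZMod p))
      (F : Finset (Matrix (Fin 2) (Fin 2) (ZMod p) × Finset (ZMod p) × Finset (ZMod p))),
      (p : ℝ) ^ δ ≤ #B →
      (∀ q ∈ F, q.1.det ≠ 0 ∧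
        (∃ (g : ZMod p) (n : ℕ), q.2.2 = (range n).image fun k : ℕ => (k : ZMod p) * g) ∧
        (p : ℝ) ^ δ ≤ #q.2.2 ∧ (#q.2.2 : ℝ) ≤ (p : ℝ) ^ (1 / 2 : ℝ) ∧
        (p : ℝ) ^ (1 + δ) * E3 (q.2.1 + q.2.2) (pre q.1 B) ≤
          (#(q.2.1 + q.2.2) : ℝ) ^ 2 * (#B : ℝ) ^ 4 * #q.2.2) →
      ∀ A : Finset (ZMod p), (∀ a ∈ A, ∃ q ∈ F, ∃ x ∈ q.2.1, den q.1 x ≠ 0 ∧ mob q.1 x = a) →
        ∀ χ : MulChar (ZMod p) ℂ, χ ≠ 1 →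
          NB χ A B ((p : ℝ) ^ (-τ) * Real.sqrt ((∑ q ∈ F, (#(q.2.1 + q.2.2) : ℝ)) * #B))

/-- LNM: from `LN.FinalLN`, MOB, UNI. -/
def FinalLNM : Prop :=
  ∀ δ : ℝ, 0 < δ → ∃ τ : ℝ, 0 < τ ∧ ∃ P : ℕ, ∀ (p : ℕ) [Fact p.Prime], P ≤ p →
    ∀ (B : Finset (ZMod p))
      (F : Finset (Matrix (Fin 2) (Fin 2) (ZMod p) × Finset (ZMod p × ZMod p) ×
        Finset (ZMod p) × ℕ)),
      (p : ℝ) ^ (1 / 2 - τ) ≤ #B →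
      (∀ q ∈ F, q.1.det ≠ 0 ∧ (∀ φ ∈ q.2.1, φ.1 ≠ 0) ∧ OffLines δ q.2.1 ∧
        (p : ℝ) ^ δ ≤ #q.2.2.1 ∧ 1 ≤ q.2.2.2) →
      ∀ A : Finset (ZMod p),
        (∀ a ∈ A, ∃ q ∈ F, q.2.2.2 ≤ #((q.2.1 ×ˢ q.2.2.1).filter fun x =>
          den q.1 (x.1.1 * x.2 + x.1.2) ≠ 0 ∧ mob q.1 (x.1.1 * x.2 + x.1.2) = a)) →
        ∀ χ : MulChar (ZMod p) ℂ, χ ≠ 1 →
          NB χ A B ((p : ℝ) ^ (-τ) *
            Real.sqrt ((∑ q ∈ F, (#q.2.1 : ℝ) * #q.2.2.1 / q.2.2.2) * #B))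

end MPcb27.MB
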